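import Pool.Agent.Helper97.Nag.Goals1
import Pool.Agent.Helper23.Nag.ENTK

/-!
# Packet NAG1-ENTX (MP_d3128a_ag): the entries with one variable are images of the generic entries
-/

set_option autoImplicit false

noncomputable section

namespace Pool.Agent.Helper36.Nag.ENTX

open Pool.Agent.Helper97 Pool.Agent.Helper97.Nag
open Pool.Agent.Helper97.Tate (OO KK SS cf IsTh qe Th iO ser evx evK evR th)
open Pool.Agent.Helper23.Nag.ENTK (Ph Ph_apply Ph_CT smul_CT)

variable {F : Type} [Field F]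

/-- the monomials in `T` -/
def mhT : Multiplicative ℤ →* LaurentPolynomial F where
  toFun g := LaurentPolynomial.T (Multiplicative.toAdd g)
  map_one' := by simp
  map_mul' := by
    intro g h
    rw [toAdd_mul, LaurentPolynomial.T_add]

/-- the powers of `x` -/
def mhX (x : Fˣ) : Multiplicative ℤ →* F where
  toFun g := ((x ^ (Multiplicative.toAdd g) : Fˣ) : F)
  map_one' := by simp
  map_mul' := by
    intro g h
    rw [toAdd_mul, zpow_add, Units.val_mul]

variable [CharZero F]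

variable (F) in
/-- `ℚ[ℤ] → F[T, 1/T]` -/
def psiT : AddMonoidAlgebra ℚ ℤ →+* LaurentPolynomial F :=
  (AddMonoidAlgebra.lift ℚ (LaurentPolynomial F) ℤ mhT :
    AddMonoidAlgebra ℚ ℤ →+* LaurentPolynomial F)

theorem smul_T (b : ℚ) (n : ℤ) :
    b • (LaurentPolynomial.T n : LaurentPolynomial F) =
      LaurentPolynomial.C (b : F) * LaurentPolynomial.T n := by
  have h := smul_CT (F := F) b 1 n
  rw [map_one, one_mul, mul_one] at h
  exact h

theorem psiT_single (n : ℤ) (b : ℚ) :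
    psiT F (AddMonoidAlgebra.single n b) =
      LaurentPolynomial.C (b : F) * LaurentPolynomial.T n := by
  have h1 : psiT F (AddMonoidAlgebra.single n b) =
      b • (LaurentPolynomial.T n : LaurentPolynomial F) :=
    AddMonoidAlgebra.lift_single _ _ _
  rw [h1, smul_T]

theorem psiT_apply (u : AddMonoidAlgebra ℚ ℤ) :
    psiT F u = u.coeff.sum fun n b =>
      LaurentPolynomial.C (b : F) * LaurentPolynomial.T n := by
  have h1 : psiT F u = u.coeff.sum fun n b => b • (LaurentPolynomial.T n : LaurentPolynomial F) :=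
    AddMonoidAlgebra.lift_apply _ _
  rw [h1]
  exact Finset.sum_congr rfl fun h _ => smul_T _ _

theorem psiT_ThX (κ : ℕ) (ρ : ℤ) :
    PowerSeries.map (psiT F) (ThX κ ρ) = Th κ ρ (1 : F) := by
  ext1 N
  rw [PowerSeries.coeff_map]
  unfold ThX Th
  rw [PowerSeries.coeff_mk, PowerSeries.coeff_mk, map_sum]
  refine Finset.sum_congr rfl fun a _ => ?_
  by_cases h : qe κ ρ a = N
  · rw [if_pos h, if_pos h, psiT_single, one_zpow, Rat.cast_one]
  · rw [if_neg h, if_neg h, map_zero]

variable (F) in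
/-- the section before evaluation -/
def Phi1 (d j ρ : ℕ) : SS F :=
  if 3 * j = d then 1 else Th (3 * (d - 3 * j)) (ρ : ℤ) 1

theorem psiT_FX (d j ρ : ℕ) :
    PowerSeries.map (psiT F) (FX d j ρ) = Phi1 F d j ρ := by
  unfold FX Phi1
  split_ifs
  · rw [map_one]
  · rw [psiT_ThX]

omit [CharZero F] in
theorem evK_Phi1 (d : ℕ) (x : Fˣ) (j ρ : ℕ) :
    evK x (Phi1 F d j ρ) = SEX d x j ρ := by
  unfold Phi1 SEX
  split_ifs
  · rw [map_one]
  · rfl

/-- `ℚ[ℤ] → F` -/
def iX (x : Fˣ) : AddMonoidAlgebra ℚ ℤ →+* F :=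
  (AddMonoidAlgebra.lift ℚ F ℤ (mhX x) : AddMonoidAlgebra ℚ ℤ →+* F)

theorem iX_inj (x : Fˣ) (h : GenX x) : Function.Injective (iX x) := by
  rw [injective_iff_map_eq_zero]
  intro u hu
  have hu' : (AddMonoidAlgebra.lift ℚ F ℤ (mhX x)) u = 0 := hu
  rw [AddMonoidAlgebra.lift_apply] at hu'
  have h1 : Finsupp.linearCombination ℚ (fun n : ℤ => ((x ^ n : Fˣ) : F)) u.coeff = 0 := by
    rw [Finsupp.linearCombination_apply]
    exact hu'
  have h2 : u.coeff = 0 := (linearIndependent_iff.1 h) _ h1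
  ext g
  rw [h2]
  rfl

theorem iX_single (x : Fˣ) (n : ℤ) (b : ℚ) :
    iX x (AddMonoidAlgebra.single n b) = (b : F) * ((x ^ n : Fˣ) : F) := by
  have h1 : iX x (AddMonoidAlgebra.single n b) = b • ((x ^ n : Fˣ) : F) :=
    AddMonoidAlgebra.lift_single _ _ _
  rw [h1, Algebra.smul_def, eq_ratCast]

/-- the whole map -/
def ff (x : Fˣ) : PowerSeries (AddMonoidAlgebra ℚ ℤ) →+* KK F :=
  (algebraMap (OO F) (KK F)).comp (PowerSeries.map (iX x))

theorem ff_inj (x : Fˣ) (h : GenX x) : Function.Injective (ff x) := by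
  have h1 : Function.Injective (algebraMap (OO F) (KK F)) := IsFractionRing.injective (OO F) (KK F)
  have h2 : Function.Injective (PowerSeries.map (iX x)) :=
    PowerSeries.map_injective _ (iX_inj x h)
  exact h1.comp h2

theorem coef_eq (x x' : Fˣ) (u : ℚ) (hx : (x' : F) = (u : F) * (x : F)) (α β j : ℕ)
    (v : AddMonoidAlgebra ℚ ℤ) :
    iX x (v.coeff.sum fun n c =>
      AddMonoidAlgebra.single n (c * ((Ring.choose n α : ℤ) : ℚ) * (j.choose β : ℚ) * u ^ n)) =
      (j.choose β : F) * Ph x' α (psiT F v) := by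
  rw [map_finsuppSum, psiT_apply, map_finsuppSum, Finsupp.mul_sum]
  refine Finset.sum_congr rfl fun n _ => ?_
  dsimp only
  rw [iX_single, Ph_CT, Units.val_zpow_eq_zpow_val x', hx, mul_zpow,
    Units.val_zpow_eq_zpow_val x]
  push_cast
  ring

theorem t (hE : Tate.S_EVC) : S_ENTX := by
  intro F _ _ d x hG
  refine ⟨ff x, ff_inj x hG, ?_⟩
  intro u x' _ hx α β j ρ
  rw [← evK_Phi1, (hE F x' (Phi1 F d j ρ) 0 α).2.1]
  have hR : ((j.choose β : ℕ) : KK F) *
          algebraMap (OO F) (KK F) (PowerSeries.coeff α (evx x' (Phi1 F d j ρ))) =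
      algebraMap (OO F) (KK F) (PowerSeries.C ((j.choose β : ℕ) : F) *
        PowerSeries.coeff α (evx x' (Phi1 F d j ρ))) := by
    rw [map_mul, map_natCast, map_natCast]
  rw [hR]
  unfold ff
  rw [RingHom.comp_apply]
  congr 1
  ext N
  rw [PowerSeries.coeff_map, PowerSeries.coeff_C_mul,
    (hE F x' (Phi1 F d j ρ) N α).1, ← Ph_apply, ← psiT_FX, PowerSeries.coeff_map]
  unfold ENTX
  rw [PowerSeries.coeff_mk, coef_eq x x' u hx]

end Pool.Agent.Helper36.Nag.ENTX
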